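import Mathlib
import Pool.Agent.Q330.DNF.Conv

set_option autoImplicit false

/-!
# Learning DNF formulas: mixed-integer convex programs

Definitions: `Formula`, `Formula.eval`, `Formula.Width` are in `Pool.Agent.Q330.DNF.Par`, `Scheme`,
`Scheme.CorrectAt`, `Scheme.Near` in `Pool.Agent.TH689.GXDefs`, `Wrong`, `Rejects`, `rejectRate` in
`Pool.Agent.TH689.QXDefs`.

A `Scheme (Formula m n) ((Fin n → Bool) × Bool) a s r D` is a scheme of mixed-integer convex
programming relaxations of the problem to find a DNF formula which agrees with a sample: any number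
of real variables and linear equations, `a` binary variables, `s` convex constraints of dimension `D`
which are common to all samples and `r` such constraints for every labelled example. Every DNF
formula has a vector, about which nothing is assumed. The scheme is correct at a formula if its
vector is a solution of the relaxation of every sample with which the formula agrees.
-/

namespace Pool.Agent.Results.MP_cba12a_lc.ConvexProgramsForDnf

open Finset Pool.Agent.Q330.DNF Pool.Agent.TH689.GX Pool.Agent.TH689.QX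

/-- A randomized scheme for DNF formulas with `m` terms over `n` variables: `Ω` is the set of the
random choices and `p` their probabilities, the size `2 ^ a (s + (r + 1) T + 1) (D + 2)` for samples
of `T` examples is always at most `M`, at every DNF formula of width at most `k` it is correct
with probability at least `α`, and it rejects `T` random examples with random labels, with the error
`δ`, with probability at least `β`. -/
def Refutes (n m k T : ℕ) (δ M α β : ℝ) : Prop :=
  ∃ (Ω : Type) (_ : Fintype Ω) (p : Ω → ℝ) (a s r D : Ω → ℕ)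
    (P : ∀ ω, Scheme (Formula m n) ((Fin n → Bool) × Bool) (a ω) (s ω) (r ω) (D ω)),
    (∀ ω, 0 ≤ p ω) ∧ ∑ ω, p ω = 1 ∧
    (∀ ω, (2 : ℝ) ^ a ω * (s ω + (r ω + 1) * T + 1) * (D ω + 2) ≤ M) ∧
    (∀ E : Formula m n, E.Width k →
      α ≤ ∑ ω, p ω * Set.indicator {E' | (P ω).CorrectAt (Wrong Formula.eval) E'} 1 E) ∧
    β ≤ ∑ ω, p ω * rejectRate (P ω) (Wrong Formula.eval) T δ

/-- (1) If `2 ^ (k - 1) ≤ m` then randomized schemes for DNF formulas with `m` terms of width `k` have
size `M ≥ (α + β - 1) C(n, k) δ ^ 2 / (2 T ^ 3)`. (2) So for every `C` and all large `n` there is no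
randomized scheme of size at most `exp ((log n) ^ 2 / 2)` for DNF formulas with `n` terms over `n`
variables which is correct at each of them (of width at most `log n + 1`) and rejects samples of
`T ≤ n ^ C` random examples with random labels, with an error `δ ≥ n ^ (-C)`, with
probabilities whose sum is at least `1 + n ^ (-C)`. -/
theorem result :
    (∀ (n m k T : ℕ) (δ M α β : ℝ), 1 ≤ k → k ≤ n → 2 ^ (k - 1) ≤ m → 1 ≤ T → 0 < δ → δ < 1 →
      Refutes n m k T δ M α β → (α + β - 1) * n.choose k * δ ^ 2 / (2 * T ^ 3) ≤ M) ∧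
    ∀ C : ℕ, ∃ n₀ : ℕ, ∀ n : ℕ, n₀ ≤ n → ∀ (T : ℕ) (δ M α β : ℝ), 1 ≤ T → T ≤ n ^ C →
      1 / (n : ℝ) ^ C ≤ δ → δ < 1 → 1 + 1 / (n : ℝ) ^ C ≤ α + β →
      Refutes n n (Nat.log 2 n + 1) T δ M α β → Real.exp ((Real.log n) ^ 2 / 2) < M := by
  have h1 : ∀ (n m k T : ℕ) (δ M α β : ℝ), 1 ≤ k → k ≤ n → 2 ^ (k - 1) ≤ m → 1 ≤ T → 0 < δ →
      δ < 1 → Refutes n m k T δ M α β → (α + β - 1) * n.choose k * δ ^ 2 / (2 * T ^ 3) ≤ M := by
    intro n m k T δ M α β hk1 hk hm hT hδ0 hδ1 hR
    obtain ⟨Ω, _, p, a, s, r, D, P, hp, hp1, hM, hα, hβ⟩ := hR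
    have hF : ∀ S : KSet n k, ∃ E : Formula m n, E.Width k ∧ ∀ x, E.eval x = par S.1 x := by
      intro S
      obtain ⟨E, hE, h⟩ := exists_formula (s := m) S.1 (card_pos.1 (by rw [S.2]; omega))
        (by rw [S.2]; exact hm)
      rw [S.2] at hE
      exact ⟨E, hE, h⟩
    choose F hFw hF using hF
    have h2 := correct_ge hk F hFw hF hT hδ0 hδ1 Ω p hp hp1 a s r D M hM P α β hα hβ
    have hc : (0 : ℝ) < n.choose k := by exact_mod_cast Nat.choose_pos hk
    have hT0 : (0 : ℝ) < T := by exact_mod_cast hT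
    rw [le_div_iff₀ (by positivity)] at h2
    rw [div_le_iff₀ (by positivity)]
    linarith
  refine ⟨h1, fun C => ?_⟩
  obtain ⟨n₁, hn₁⟩ := choose_large
  have hlog : ∀ᶠ n : ℕ in Filter.atTop, (6 : ℝ) * (6 * C + 1) ≤ Real.log n :=
    (Real.tendsto_log_atTop.comp tendsto_natCast_atTop_atTop).eventually_ge_atTop _
  obtain ⟨n₂, hn₂⟩ := Filter.eventually_atTop.1 hlog
  refine ⟨max (max n₁ n₂) 3, fun n hn T δ M α β hT hTC hδ hδ1 hαβ hR => ?_⟩
  obtain ⟨h2, h3⟩ := hn₁ n ((le_max_left _ _).trans ((le_max_left _ _).trans hn))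
  have h4 := hn₂ n ((le_max_right _ _).trans ((le_max_left _ _).trans hn))
  have hn3 : 3 ≤ n := (le_max_right _ _).trans hn
  have hn0 : (0 : ℝ) < n := by exact_mod_cast (by omega : 0 < n)
  obtain ⟨l, hl⟩ : ∃ l, l = Real.log n := ⟨_, rfl⟩
  obtain ⟨k, hk⟩ : ∃ k, k = Nat.log 2 n + 1 := ⟨_, rfl⟩
  rw [← hl] at h3 h4 ⊢
  rw [← hk] at h2 h3 hR
  have hexp : (n : ℝ) = Real.exp l := by rw [hl, Real.exp_log hn0]
  have hC0 : (0 : ℝ) ≤ C := by positivity
  have hnC : (n : ℝ) ^ C = Real.exp (C * l) := by rw [hexp, Real.exp_nat_mul]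
  have hδ0 : 0 < δ := lt_of_lt_of_le (by positivity) hδ
  have h5 := h1 n n k T δ M α β (by omega) (by omega) (by
    rw [hk, Nat.add_sub_cancel]
    exact Nat.pow_log_le_self 2 (by omega)) hT hδ0 hδ1 hR
  refine lt_of_lt_of_le ?_ h5
  have hT0 : (0 : ℝ) < T := by exact_mod_cast hT
  rw [lt_div_iff₀ (by positivity)]
  have hγ : Real.exp (-(C * l)) ≤ α + β - 1 := by
    rw [Real.exp_neg, ← one_div, ← hnC]
    linarith
  have hδ2 : Real.exp (-(2 * C * l)) ≤ δ ^ 2 := by
    have : Real.exp (-(C * l)) ≤ δ := by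
      rw [Real.exp_neg, ← one_div, ← hnC]
      exact hδ
    calc Real.exp (-(2 * C * l)) = Real.exp (-(C * l)) ^ 2 := by
          rw [← Real.exp_nat_mul]
          congr 1
          push_cast
          ring
      _ ≤ δ ^ 2 := pow_le_pow_left₀ (Real.exp_pos _).le this 2
  have hT3 : (T : ℝ) ^ 3 ≤ Real.exp (3 * C * l) := by
    have : (T : ℝ) ≤ Real.exp (C * l) := by
      rw [← hnC]
      exact_mod_cast hTC
    calc (T : ℝ) ^ 3 ≤ Real.exp (C * l) ^ 3 := pow_le_pow_left₀ hT0.le this 3
      _ = Real.exp (3 * C * l) := by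
          rw [← Real.exp_nat_mul]
          congr 1
          push_cast
          ring
  have h2e : (2 : ℝ) < Real.exp l := by
    rw [← hexp]
    exact_mod_cast (by omega : 2 < n)
  calc Real.exp (l ^ 2 / 2) * (2 * (T : ℝ) ^ 3) <
        Real.exp (l ^ 2 / 2) * (Real.exp l * Real.exp (3 * C * l)) := by
        refine mul_lt_mul_of_pos_left ?_ (Real.exp_pos _)
        calc 2 * (T : ℝ) ^ 3 < Real.exp l * (T : ℝ) ^ 3 :=
              mul_lt_mul_of_pos_right h2e (by positivity)
          _ ≤ _ := mul_le_mul_of_nonneg_left hT3 (Real.exp_pos _).le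
    _ = Real.exp (l ^ 2 / 2 + (l + 3 * C * l)) := by rw [Real.exp_add, Real.exp_add]
    _ ≤ Real.exp (-(C * l) + 2 / 3 * l ^ 2 + -(2 * C * l)) := by
        apply Real.exp_le_exp.2
        nlinarith
    _ = Real.exp (-(C * l)) * Real.exp (2 / 3 * l ^ 2) * Real.exp (-(2 * C * l)) := by
        rw [Real.exp_add, Real.exp_add]
    _ ≤ (α + β - 1) * n.choose k * δ ^ 2 := by
        refine mul_le_mul (mul_le_mul hγ h3 (Real.exp_pos _).le ?_) hδ2 (Real.exp_pos _).le ?_
        · exact (Real.exp_pos _).le.trans hγ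
        · exact mul_nonneg ((Real.exp_pos _).le.trans hγ) (by positivity)

end Pool.Agent.Results.MP_cba12a_lc.ConvexProgramsForDnf
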