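import Mathlib
import Pool.Agent.Q330.DNF.Deg
import Pool.Agent.Q330.DNF.Asym

set_option autoImplicit false

/-!
# Learning DNF formulas: predictors of low degree

Definitions: `Formula`, `Formula.eval`, `Formula.Width` (DNF formulas with `s` terms) and `par` are in
`Pool.Agent.Q330.DNF.Par`; `Pred`, `secondMoment`, `meanE`, `adv` in `Pool.Agent.Q330.DNF.Low`;
`DegLabels`, `DegBits` in `Pool.Agent.Q330.DNF.Deg`; `sgn` (`1` for true, `-1` for false) in
`Pool.Agent.TH440.LD.Fourier`.

A predictor gets `N` examples `X`, their labels `y` and a fresh point `x`, and predicts the value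
of the unknown function at `x` (as a real number, for instance the mean of the randomized
prediction `1` or `-1` of the hypothesis of a randomized learner).
Low-degree predictors are polynomials of low degree in the labels (and arbitrary in the attributes
and in the fresh point), or of low degree in all bits of the examples (and arbitrary in the fresh
point).
-/

namespace Pool.Agent.Results.MP_cba12a_lc.LowDegreePredictors

open Finset Pool.Agent.Q330.DNF

/-- Every predictor `Q` which is approximated, with the mean error `η` for all DNF formulas with `s`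
terms of width `k`, by a predictor `P` in the class `Cls` has a correlation of at most
`η + sqrt (M B)` with some such DNF formula, `M` being the mean of `P ^ 2` for random labels. -/
def Fails (N n s k : ℕ) (Cls : Pred N n → Prop) (B : ℝ) : Prop :=
  ∀ P : Pred N n, Cls P → ∀ (Q : Pred N n) (η : ℝ),
    (∀ D : Formula s n, D.Width k → meanE (fun X x =>
      |Q X (fun i => D.eval (X i)) x - P X (fun i => D.eval (X i)) x|) ≤ η) →
    ∃ D : Formula s n, D.Width k ∧ |adv Q D.eval| ≤ η + Real.sqrt (secondMoment P * B)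

/-- (1) Degree at most `d` in the labels; (2) degree at most `D` in all bits of the examples: the
square of the correlation of `P` is, on average over all parities of `k` variables, at most the
second moment times `∑_{j ≤ t} C(N, j) / C(n, k)`, `t = d` or `t = ⌊D / (k + 1)⌋`; so for
`2 ^ (k - 1) ≤ s` such predictors do not learn DNF formulas with `s` terms of width `k` even weakly
if this is small. (3) Both bounds are sharp up to the terms `j < t` of the sum. (4) For every
`C` there is `c > 0` such that from `N ≤ n ^ C` examples predictors of degree at most `c log n` in the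
labels, or of degree at most `c (log n) ^ 2` in all bits, and of second moment at most `n ^ C`, do not
learn DNF formulas with `n` terms over `n` variables with correlation more than
`exp (- (log n) ^ 2 / 3)`. -/
theorem result :
    (∀ (N n s k d : ℕ), 1 ≤ k → k ≤ n → 2 ^ (k - 1) ≤ s →
      (∀ P : Pred N n, DegLabels d P → ∑ S ∈ univ.powersetCard k, adv P (par S) ^ 2 ≤
        secondMoment P * ∑ j ∈ range (d + 1), (N.choose j : ℝ)) ∧
      Fails N n s k (DegLabels d) ((∑ j ∈ range (d + 1), (N.choose j : ℝ)) / n.choose k)) ∧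
    (∀ (N n s k D : ℕ), 1 ≤ k → k ≤ n → 2 ^ (k - 1) ≤ s →
      (∀ P : Pred N n, DegBits D P → ∑ S ∈ univ.powersetCard k, adv P (par S) ^ 2 ≤
        secondMoment P * ∑ j ∈ range (D / (k + 1) + 1), (N.choose j : ℝ)) ∧
      Fails N n s k (DegBits D)
        ((∑ j ∈ range (D / (k + 1) + 1), (N.choose j : ℝ)) / n.choose k)) ∧
    (∀ (N n k d : ℕ), ∃ P : Pred N n, DegLabels d P ∧ DegBits (d * (k + 1)) P ∧
      secondMoment P = N.choose d * n.choose k ∧
        ∀ S : Finset (Fin n), S.card = k → adv P (par S) = N.choose d) ∧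
    ∀ C : ℕ, ∃ c : ℝ, 0 < c ∧ ∃ n₀ : ℕ, ∀ n : ℕ, n₀ ≤ n → ∀ N d : ℕ, N ≤ n ^ C →
      ∀ P : Pred N n, secondMoment P ≤ (n : ℝ) ^ C →
      ((DegLabels d P ∧ (d : ℝ) ≤ c * Real.log n) ∨
        (DegBits d P ∧ (d : ℝ) ≤ c * (Real.log n) ^ 2)) →
      ∀ (Q : Pred N n) (η : ℝ), (∀ D : Formula n n, D.Width (Nat.log 2 n + 1) →
        meanE (fun X x => |Q X (fun i => D.eval (X i)) x - P X (fun i => D.eval (X i)) x|) ≤ η) →
      ∃ D : Formula n n, D.Width (Nat.log 2 n + 1) ∧
        |adv Q D.eval| ≤ η + Real.exp (-(Real.log n) ^ 2 / 3) := by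
  have hf : ∀ (N n s k t : ℕ) (Cls : Pred N n → Prop), 1 ≤ k → k ≤ n → 2 ^ (k - 1) ≤ s →
      (∀ P, Cls P → Ort t k P) →
      Fails N n s k Cls ((∑ j ∈ range (t + 1), (N.choose j : ℝ)) / n.choose k) := by
    intro N n s k t Cls hk1 hk hs hC P hP Q η hQ
    rw [← mul_div_assoc]
    exact not_predicted hk1 hk hs (hC P hP) Q η hQ
  refine ⟨fun N n s k d hk1 hk hs => ⟨fun P hP => main (ort_labels k hP),
      hf N n s k d _ hk1 hk hs fun P hP => ort_labels k hP⟩,
    fun N n s k D hk1 hk hs => ⟨fun P hP => main (ort_bits k hP),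
      hf N n s k _ _ hk1 hk hs fun P hP => ort_bits k hP⟩,
    fun N n k d => ⟨best N n d k, best_labels d k, best_bits d k, best_moment d k,
      fun S hS => best_adv d k S hS⟩, ?_⟩
  intro C
  obtain ⟨c, hc, n₀, hn₀⟩ := numeric C
  refine ⟨c, hc, max n₀ 2, fun n hn N d hN P hP hdeg Q η hQ => ?_⟩
  have hn1 : n₀ ≤ n := (le_max_left _ _).trans hn
  have hn2 : 2 ≤ n := (le_max_right _ _).trans hn
  have hM0 : 0 ≤ secondMoment P := by
    unfold secondMoment
    positivity
  have hlog : 0 ≤ Real.log n := Real.log_nonneg (by exact_mod_cast (by omega : 1 ≤ n))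
  obtain ⟨k, hk⟩ : ∃ k, k = Nat.log 2 n + 1 := ⟨_, rfl⟩
  obtain ⟨t, ht, hort⟩ : ∃ t : ℕ, (t : ℝ) ≤ c * Real.log n ∧ Ort t k P := by
    rcases hdeg with ⟨h1, h2⟩ | ⟨h1, h2⟩
    · exact ⟨d, h2, ort_labels k h1⟩
    · refine ⟨d / (k + 1), ?_, ort_bits k h1⟩
      have h3 := (hn₀ n hn1 N 0 hN (by push_cast; positivity) _ hM0 hP).2.1
      rw [← hk] at h3
      have h4 : ((d / (k + 1) : ℕ) : ℝ) ≤ (d : ℝ) / (k + 1 : ℕ) := Nat.cast_div_le
      refine h4.trans ?_
      rw [div_le_iff₀ (by positivity)]
      push_cast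
      nlinarith [mul_nonneg hc.le hlog]
  obtain ⟨h1, -, h3⟩ := hn₀ n hn1 N t hN ht _ hM0 hP
  rw [← hk] at h1 h3 hQ ⊢
  have hs : 2 ^ (k - 1) ≤ n := by
    rw [hk, Nat.add_sub_cancel]
    exact Nat.pow_log_le_self 2 (by omega)
  obtain ⟨D, hD, h5⟩ := not_predicted (by omega) (by omega) hs hort Q η hQ
  exact ⟨D, hD, h5.trans (by linarith)⟩

end Pool.Agent.Results.MP_cba12a_lc.LowDegreePredictors
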